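import Pool.Agent.H812R2.PI.JFin

/-! Cutting words (digital segments) and their edges. -/

namespace Pool.Agent.TH990.PB

open scoped BigOperators
open Pool.Agent.H812R2.PI

variable {d : ℕ}

/-- `w` is an `ε`-almost cutting word of the segment `x + [0,1] ab w`: the (closed) unit cubes at
all vertices of the path of `w`, enlarged by `ε`, meet the segment. -/
def NearCut (ε : ℝ) (x : Fin d → ℝ) (w : List (Fin d)) : Prop :=
  ∀ k ≤ w.length, ∃ t : ℝ, 0 ≤ t ∧ t ≤ 1 ∧ ∀ i,
    (ab (w.take k) i : ℝ) - ε ≤ x i + t * (ab w i : ℝ) ∧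
      x i + t * (ab w i : ℝ) ≤ (ab (w.take k) i : ℝ) + 1 + ε

theorem ab_nonneg (w : List (Fin d)) (i : Fin d) : 0 ≤ ab w i := by
  simp [ab]

theorem eq_of_le_of_sum {z z' : Fin d → ℤ} (h : ∀ i, z i ≤ z' i) (hs : ∑ i, z i = ∑ i, z' i) :
    z = z' := by
  funext i
  by_contra hne
  have h1 : ∑ j, z j < ∑ j, z' j :=
    Finset.sum_lt_sum (fun j _ => h j) ⟨i, Finset.mem_univ i, lt_of_le_of_ne (h i) hne⟩
  omega

/-- The edge crossed by the segment at a point far from the lower dimensional faces belongs to the
path. -/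
theorem cross (w : List (Fin d)) (x : Fin d → ℝ) (hx : ∀ i, 0 ≤ x i ∧ x i ≤ 1) (ε c R : ℝ)
    (hε : 0 ≤ ε) (hε1 : ε < 1) (hR : 0 ≤ R) (hc : (1 + R) * ε < c)
    (hw : NearCut ε x w) (i : Fin d) (hVi : 0 < ab w i)
    (hVR : ∀ j, (ab w j : ℝ) ≤ R * (ab w i : ℝ)) (t : ℝ) (ht0 : 0 < t) (ht1 : t < 1)
    (z : Fin d → ℤ) (hzi : x i + t * (ab w i : ℝ) = z i + 1)
    (hzj : ∀ j, j ≠ i → (z j : ℝ) + c ≤ x j + t * (ab w j : ℝ) ∧
      x j + t * (ab w j : ℝ) ≤ z j + 1 - c) :
    (z, i) ∈ edges 0 w := by
  have hc0 : 0 < c := lt_of_le_of_lt (by positivity) hc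
  have hcε : ε < c := lt_of_le_of_lt (by nlinarith) hc
  have hVi' : (0 : ℝ) < (ab w i : ℝ) := by exact_mod_cast hVi
  have hVn : ∀ j, (0 : ℝ) ≤ (ab w j : ℝ) := fun j => by exact_mod_cast ab_nonneg w j
  have hz0 : ∀ j, 0 ≤ z j := by
    intro j
    by_cases hj : j = i
    · subst hj
      have h1 : (0 : ℝ) < z j + 1 := by
        rw [← hzi]; have := (hx j).1; nlinarith [mul_pos ht0 hVi']
      have h2 : (0 : ℤ) < z j + 1 := by exact_mod_cast h1
      omega
    · have h1 := (hzj j hj).2
      have h2 : 0 ≤ x j + t * (ab w j : ℝ) := by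
        have := (hx j).1; have := mul_nonneg ht0.le (hVn j); linarith
      have h3 : (0 : ℝ) < z j + 1 := by linarith
      have h4 : (0 : ℤ) < z j + 1 := by exact_mod_cast h3
      omega
  have hzV : ∀ j, z j + (if j = i then 1 else 0) ≤ ab w j := by
    intro j
    by_cases hj : j = i
    · subst hj
      simp only [if_true]
      have h1 : ((z j + 1 : ℤ) : ℝ) < (ab w j : ℝ) + 1 := by
        push_cast
        rw [← hzi]
        have := (hx j).2
        nlinarith
      have h2 : z j + 1 < ab w j + 1 := by exact_mod_cast h1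
      omega
    · simp only [hj, if_false, add_zero]
      have h1 := (hzj j hj).1
      have h2 : t * (ab w j : ℝ) ≤ (ab w j : ℝ) := by nlinarith [hVn j]
      have h3 : (z j : ℝ) < (ab w j : ℝ) + 1 := by have := (hx j).2; linarith
      have h4 : z j < ab w j + 1 := by exact_mod_cast h3
      omega
  have hsumV : ∑ j, z j + 1 ≤ (w.length : ℤ) := by
    have h1 := Finset.sum_le_sum (s := Finset.univ) (fun j _ => hzV j)
    rw [Finset.sum_add_distrib, ab_sum] at h1
    simpa using h1
  have hsum0 : 0 ≤ ∑ j, z j := Finset.sum_nonneg fun j _ => hz0 j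
  obtain ⟨k, hk⟩ := Int.eq_ofNat_of_zero_le hsum0
  have hkl : k < w.length := by omega
  -- the vertex at level `k`
  have hsk : ∑ j, ab (w.take k) j = ∑ j, z j := by
    rw [ab_sum, hk, List.length_take, min_eq_left hkl.le]
  have hsk1 : ∑ j, ab (w.take (k + 1)) j = ∑ j, z j + 1 := by
    rw [ab_sum, hk, List.length_take, min_eq_left (by omega)]
    push_cast; ring
  have key1 : ab (w.take k) = z := by
    obtain ⟨s, hs0, hs1, hs⟩ := hw k hkl.le
    rcases le_total t s with hts | hts
    · refine (eq_of_le_of_sum (fun j => ?_) hsk.symm).symm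
      by_cases hj : j = i
      · subst hj
        have h1 := (hs j).2
        have h2 : t * (ab w j : ℝ) ≤ s * (ab w j : ℝ) := mul_le_mul_of_nonneg_right hts (hVn j)
        have h3 : (z j : ℝ) < (ab (w.take k) j : ℝ) + 1 := by linarith
        have h4 : z j < ab (w.take k) j + 1 := by exact_mod_cast h3
        omega
      · have h1 := (hs j).2
        have h0 := (hzj j hj).1
        have h2 : t * (ab w j : ℝ) ≤ s * (ab w j : ℝ) := mul_le_mul_of_nonneg_right hts (hVn j)
        have h3 : (z j : ℝ) < (ab (w.take k) j : ℝ) + 1 := by linarith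
        have h4 : z j < ab (w.take k) j + 1 := by exact_mod_cast h3
        omega
    · have hle : ∀ j, j ≠ i → ab (w.take k) j ≤ z j := by
        intro j hj
        have h1 := (hs j).1
        have h0 := (hzj j hj).2
        have h2 : s * (ab w j : ℝ) ≤ t * (ab w j : ℝ) := mul_le_mul_of_nonneg_right hts (hVn j)
        have h3 : (ab (w.take k) j : ℝ) < (z j : ℝ) + 1 := by linarith
        have h4 : ab (w.take k) j < z j + 1 := by exact_mod_cast h3
        omega
      have hlei : ab (w.take k) i ≤ z i + 1 := by
        have h1 := (hs i).1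
        have h2 : s * (ab w i : ℝ) ≤ t * (ab w i : ℝ) := mul_le_mul_of_nonneg_right hts (hVn i)
        have h3 : (ab (w.take k) i : ℝ) < (z i : ℝ) + 2 := by linarith
        have h4 : ab (w.take k) i < z i + 2 := by exact_mod_cast h3
        omega
      rcases lt_or_ge (z i) (ab (w.take k) i) with hi | hi
      · exfalso
        have hi' : ab (w.take k) i = z i + 1 := by omega
        obtain ⟨j, hj, hjl⟩ : ∃ j, j ≠ i ∧ ab (w.take k) j < z j := by
          by_contra hcon
          push Not at hcon
          have : ∑ j, z j < ∑ j, ab (w.take k) j := by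
            refine Finset.sum_lt_sum (fun j _ => ?_) ⟨i, Finset.mem_univ i, by omega⟩
            by_cases hj : j = i
            · subst hj; omega
            · exact hcon j hj
          omega
        have h1 := (hs j).2
        have h2 := (hs i).1
        have h3 := (hzj j hj).1
        have h4 : (ab (w.take k) j : ℝ) + 1 ≤ z j := by exact_mod_cast hjl
        have h5 : (ab (w.take k) i : ℝ) = z i + 1 := by exact_mod_cast hi'
        have h6 : (t - s) * (ab w i : ℝ) ≤ ε := by linarith
        have h7 : (t - s) * (ab w j : ℝ) ≤ R * ε := by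
          calc (t - s) * (ab w j : ℝ) ≤ (t - s) * (R * (ab w i : ℝ)) :=
                mul_le_mul_of_nonneg_left (hVR j) (by linarith)
            _ = R * ((t - s) * (ab w i : ℝ)) := by ring
            _ ≤ R * ε := mul_le_mul_of_nonneg_left h6 hR
        nlinarith
      · refine eq_of_le_of_sum (fun j => ?_) hsk
        by_cases hj : j = i
        · subst hj; exact hi
        · exact hle j hj
  have key2 : ab (w.take (k + 1)) i = z i + 1 := by
    obtain ⟨s, hs0, hs1, hs⟩ := hw (k + 1) (by omega)
    rcases le_total t s with hts | hts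
    · by_contra hne
      have hge : ∀ j, z j ≤ ab (w.take (k + 1)) j := by
        intro j
        by_cases hj : j = i
        · subst hj
          have h1 := (hs j).2
          have h2 : t * (ab w j : ℝ) ≤ s * (ab w j : ℝ) := mul_le_mul_of_nonneg_right hts (hVn j)
          have h3 : (z j : ℝ) < (ab (w.take (k + 1)) j : ℝ) + 1 := by linarith
          have h4 : z j < ab (w.take (k + 1)) j + 1 := by exact_mod_cast h3
          omega
        · have h1 := (hs j).2
          have h0 := (hzj j hj).1
          have h2 : t * (ab w j : ℝ) ≤ s * (ab w j : ℝ) := mul_le_mul_of_nonneg_right hts (hVn j)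
          have h3 : (z j : ℝ) < (ab (w.take (k + 1)) j : ℝ) + 1 := by linarith
          have h4 : z j < ab (w.take (k + 1)) j + 1 := by exact_mod_cast h3
          omega
      have hi : ab (w.take (k + 1)) i = z i := by
        have hgi := hge i
        have hup : ab (w.take (k + 1)) i ≤ z i + 1 := by
          have h1 : ∑ j, (if j = i then (ab (w.take (k + 1)) i - z i) else 0) ≤
              ∑ j, (ab (w.take (k + 1)) j - z j) := by
            refine Finset.sum_le_sum fun j _ => ?_
            by_cases hj : j = i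
            · subst hj; simp
            · simp only [hj, if_false]; have := hge j; omega
          rw [Finset.sum_sub_distrib, hsk1] at h1
          simp at h1
          omega
        omega
      obtain ⟨j, hj, hjl⟩ : ∃ j, j ≠ i ∧ z j < ab (w.take (k + 1)) j := by
        by_contra hcon
        push Not at hcon
        have : ∑ j, ab (w.take (k + 1)) j ≤ ∑ j, z j := by
          refine Finset.sum_le_sum (fun j _ => ?_)
          by_cases hj : j = i
          · subst hj; omega
          · exact hcon j hj
        omega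
      have h1 := (hs j).1
      have h2 := (hs i).2
      have h3 := (hzj j hj).2
      have h4 : (z j : ℝ) + 1 ≤ (ab (w.take (k + 1)) j : ℝ) := by exact_mod_cast hjl
      have h5 : (ab (w.take (k + 1)) i : ℝ) = z i := by exact_mod_cast hi
      have h6 : (s - t) * (ab w i : ℝ) ≤ ε := by linarith
      have h7 : (s - t) * (ab w j : ℝ) ≤ R * ε := by
        calc (s - t) * (ab w j : ℝ) ≤ (s - t) * (R * (ab w i : ℝ)) :=
              mul_le_mul_of_nonneg_left (hVR j) (by linarith)
          _ = R * ((s - t) * (ab w i : ℝ)) := by ring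
          _ ≤ R * ε := mul_le_mul_of_nonneg_left h6 hR
      nlinarith
    · have hle : ∀ j, j ≠ i → ab (w.take (k + 1)) j ≤ z j := by
        intro j hj
        have h1 := (hs j).1
        have h0 := (hzj j hj).2
        have h2 : s * (ab w j : ℝ) ≤ t * (ab w j : ℝ) := mul_le_mul_of_nonneg_right hts (hVn j)
        have h3 : (ab (w.take (k + 1)) j : ℝ) < (z j : ℝ) + 1 := by linarith
        have h4 : ab (w.take (k + 1)) j < z j + 1 := by exact_mod_cast h3
        omega
      have hlei : ab (w.take (k + 1)) i ≤ z i + 1 := by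
        have h1 := (hs i).1
        have h2 : s * (ab w i : ℝ) ≤ t * (ab w i : ℝ) := mul_le_mul_of_nonneg_right hts (hVn i)
        have h3 : (ab (w.take (k + 1)) i : ℝ) < (z i : ℝ) + 2 := by linarith
        have h4 : ab (w.take (k + 1)) i < z i + 2 := by exact_mod_cast h3
        omega
      by_contra hne
      have hlt : ab (w.take (k + 1)) i ≤ z i := by omega
      have : ∑ j, ab (w.take (k + 1)) j ≤ ∑ j, z j := by
        refine Finset.sum_le_sum (fun j _ => ?_)
        by_cases hj : j = i
        · subst hj; exact hlt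
        · exact hle j hj
      omega
  have hstep : ab (w.take (k + 1)) = ab (w.take k) + ev (w[k]) := by
    rw [List.take_add_one, List.getElem?_eq_getElem hkl]
    simp only [Option.toList_some]
    rw [ab_append, ab_single]
  have hwk : w[k] = i := by
    have h1 := congrFun hstep i
    rw [key2, key1] at h1
    simp only [Pi.add_apply, ev] at h1
    by_contra hne
    have : ¬ (i = w[k]) := fun h => hne h.symm
    simp [this] at h1
  rw [mem_edges]
  exact ⟨k, hkl, by rw [key1, hwk, zero_add]⟩

/-- existence of cutting words -/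
theorem exists_cut_aux (V : Fin d → ℤ) (x : Fin d → ℝ) (hx : ∀ i, 0 ≤ x i ∧ x i ≤ 1) (n : ℕ) :
    ∀ (z : Fin d → ℤ) (t : ℝ), 0 ≤ t → t ≤ 1 → (∀ i, z i ≤ V i) → (∀ i, 0 ≤ z i) →
      ∑ i, (V i - z i) = n →
      (∀ i, (z i : ℝ) ≤ x i + t * V i ∧ x i + t * V i ≤ z i + 1) →
      ∃ w : List (Fin d), z + ab w = V ∧ ∀ k ≤ w.length, ∃ s : ℝ, 0 ≤ s ∧ s ≤ 1 ∧ ∀ i,
        ((z + ab (w.take k)) i : ℝ) ≤ x i + s * V i ∧
          x i + s * V i ≤ ((z + ab (w.take k)) i : ℝ) + 1 := by
  induction n with
  | zero =>
    intro z t ht0 ht1 hz hz0 hn hzt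
    have h1 : z = V := by
      refine eq_of_le_of_sum hz ?_
      rw [Finset.sum_sub_distrib] at hn
      simp at hn
      omega
    refine ⟨[], by rw [ab_nil, add_zero, h1], fun k hk => ⟨t, ht0, ht1, fun i => ?_⟩⟩
    simpa [ab_nil] using hzt i
  | succ n ih =>
    intro z t ht0 ht1 hz hz0 hn hzt
    have hne : (Finset.univ.filter fun i => z i < V i).Nonempty := by
      by_contra hcon
      rw [Finset.not_nonempty_iff_eq_empty, Finset.filter_eq_empty_iff] at hcon
      have : ∑ i, (V i - z i) = 0 := Finset.sum_eq_zero fun i _ => by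
        have h1 := hcon (Finset.mem_univ i); have h2 := hz i; omega
      rw [this] at hn
      omega
    obtain ⟨i, hi, hmin⟩ := Finset.exists_min_image _
      (fun i => ((z i : ℝ) + 1 - x i) / (V i : ℝ)) hne
    rw [Finset.mem_filter] at hi
    have hi := hi.2
    have hVi : (0 : ℝ) < V i := by
      have : 0 < V i := lt_of_le_of_lt (hz0 i) hi
      exact_mod_cast this
    set s := ((z i : ℝ) + 1 - x i) / (V i : ℝ) with hs
    have hsV : s * V i = z i + 1 - x i := by rw [hs]; field_simp
    have hts : t ≤ s := by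
      rw [hs, le_div_iff₀ hVi]
      have := (hzt i).2
      linarith
    have hs1 : s ≤ 1 := by
      rw [hs, div_le_one hVi]
      have h1 : (z i : ℝ) + 1 ≤ V i := by exact_mod_cast hi
      have := (hx i).1
      linarith
    have hVn : ∀ j, (0 : ℝ) ≤ V j := fun j => by exact_mod_cast (hz0 j).trans (hz j)
    obtain ⟨w, hw1, hw2⟩ := ih (z + ev i) s (ht0.trans hts) hs1
      (fun j => by
        simp only [Pi.add_apply, ev]
        by_cases hj : j = i
        · subst hj; simp; omega
        · simp [hj]; exact hz j)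
      (fun j => by
        simp only [Pi.add_apply, ev]
        have := hz0 j
        split_ifs <;> omega)
      (by
        have h1 : ∑ j, (V j - (z + ev i) j) = ∑ j, (V j - z j) - ∑ j, ev i j := by
          rw [← Finset.sum_sub_distrib]
          exact Finset.sum_congr rfl fun j _ => by simp [Pi.add_apply]; ring
        rw [h1, hn]
        simp [ev])
      (fun j => by
        simp only [Pi.add_apply, ev]
        by_cases hj : j = i
        · subst hj
          simp only [if_true]
          push_cast
          constructor <;> linarith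
        · simp only [hj, if_false, add_zero]
          have h1 := hzt j
          have h2 : t * V j ≤ s * V j := mul_le_mul_of_nonneg_right hts (hVn j)
          refine ⟨by linarith, ?_⟩
          rcases lt_or_ge (z j) (V j) with hjv | hjv
          · have hVj : (0 : ℝ) < V j := by
              have : 0 < V j := lt_of_le_of_lt (hz0 j) hjv
              exact_mod_cast this
            have h3 : s ≤ ((z j : ℝ) + 1 - x j) / (V j : ℝ) := hmin j (by simp [hjv])
            rw [le_div_iff₀ hVj] at h3
            linarith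
          · have h3 : z j = V j := le_antisymm (hz j) hjv
            have h4 : s * V j ≤ V j := by nlinarith [hVn j]
            have h5 := (hx j).2
            rw [h3]
            linarith)
    refine ⟨i :: w, ?_, ?_⟩
    · rw [ab_cons, ← hw1]; abel
    · intro k hk
      rcases Nat.eq_zero_or_pos k with rfl | hk0
      · refine ⟨t, ht0, ht1, fun j => ?_⟩
        simpa [ab_nil] using hzt j
      · obtain ⟨k', rfl⟩ : ∃ k', k = k' + 1 := ⟨k - 1, by omega⟩
        obtain ⟨s', h0, h1, h2⟩ := hw2 k' (by simp at hk; omega)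
        refine ⟨s', h0, h1, fun j => ?_⟩
        have e : z + ab ((i :: w).take (k' + 1)) = z + ev i + ab (w.take k') := by
          rw [List.take_succ_cons, ab_cons]; abel
        rw [e]
        exact h2 j

theorem exists_cut (V : Fin d → ℤ) (hV : ∀ i, 0 ≤ V i) (x : Fin d → ℝ)
    (hx : ∀ i, 0 ≤ x i ∧ x i ≤ 1) : ∃ w : List (Fin d), ab w = V ∧ NearCut 0 x w := by
  have hnn : 0 ≤ ∑ i, (V i - (0 : Fin d → ℤ) i) :=
    Finset.sum_nonneg fun i _ => by simp [hV i]
  obtain ⟨n, hn⟩ := Int.eq_ofNat_of_zero_le hnn
  obtain ⟨w, hw1, hw2⟩ := exists_cut_aux V x hx n 0 0 le_rfl zero_le_one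
    (fun i => by simpa using hV i) (fun i => le_rfl) hn
    (fun i => by simpa using hx i)
  rw [zero_add] at hw1
  refine ⟨w, hw1, fun k hk => ?_⟩
  obtain ⟨s, h0, h1, h2⟩ := hw2 k hk
  refine ⟨s, h0, h1, fun i => ?_⟩
  have h3 := h2 i
  rw [zero_add] at h3
  rw [hw1]
  constructor <;> linarith [h3.1, h3.2]

end Pool.Agent.TH990.PB
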