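import Pool.Agent.TH990.PB.Main

/-! Near cutting words: the Pisot substitution conjecture (assembly). -/

namespace Pool.Agent.TH990.PB

open scoped BigOperators
open Pool.Agent.H812R2.PI Filter

variable {d : ℕ}

theorem NearCut.mono {ε ε' : ℝ} (h : ε ≤ ε') {x : Fin d → ℝ} {w : List (Fin d)}
    (hw : NearCut ε x w) : NearCut ε' x w := by
  intro k hk
  obtain ⟨t, h0, h1, h2⟩ := hw k hk
  exact ⟨t, h0, h1, fun i => ⟨by linarith [(h2 i).1], by linarith [(h2 i).2]⟩⟩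

/-- the columns of `M^n` are close to the direction `u` -/
theorem col_close {M : Matrix (Fin d) (Fin d) ℤ} (P : PD M) (n : ℕ) (v : Fin d → ℤ) (K : ℝ)
    (hK : P.N (rv v) ≤ K) (j : Fin d) :
    |((((M ^ n).mulVec v) j : ℤ) : ℝ) - (∑ l, ((((M ^ n).mulVec v) l : ℤ) : ℝ)) * P.u j| ≤
      P.c * (P.rho ^ n * K) := by
  have h1 := P.le_cN (rv ((M ^ n).mulVec v)) j
  have h2 := N_pow_mulVec P n v
  refine h1.trans (mul_le_mul_of_nonneg_left (h2.trans ?_) P.c_pos.le)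
  exact mul_le_mul_of_nonneg_left hK (pow_nonneg P.rho_nonneg n)

theorem col_ht {M : Matrix (Fin d) (Fin d) ℤ} (P : PD M) (n : ℕ) (v : Fin d → ℤ) :
    ∑ j, P.ell j * ((((M ^ n).mulVec v) j : ℤ) : ℝ) = P.lam ^ n * P.ht v :=
  ht_pow_mulVec P n v

/-- near cutting words have coincidences -/
theorem hit_near {m : ℕ} {M : Matrix (Fin (m+1)) (Fin (m+1)) ℤ} (P : PD M) :
    ∃ ε : ℝ, 0 < ε ∧ ε < 1 ∧ ∀ D : ℝ, ∀ᶠ n : ℕ in atTop,
      ∀ x : Fin (m+1) → ℝ, (∀ j, 0 ≤ x j ∧ x j ≤ 1) → ∀ τ : Fin (m+1) → List (Fin (m+1)),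
      inc τ = M ^ n → (∀ a, NearCut ε x (τ a)) → P.Hit τ D := by
  obtain ⟨c₀, hc0, hc1, hc₀⟩ := exists_c0 P 0
  have hu := P.u_pos 0
  have hR : 0 < 1 + 2 / P.u 0 := by positivity
  have hR1 : 1 ≤ 1 + 2 / P.u 0 := by
    have : 0 ≤ 2 / P.u 0 := by positivity
    linarith
  refine ⟨c₀ / (4 * (1 + 2 / P.u 0)), by positivity, ?_, ?_⟩
  · rw [div_lt_one (by positivity)]; linarith
  intro D
  set ε := c₀ / (4 * (1 + 2 / P.u 0)) with hε
  have hε0 : 0 < ε := by positivity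
  have hε1 : ε < 1 := by rw [hε, div_lt_one (by positivity)]; linarith
  have hεc : (1 + 2 / P.u 0) * ε < c₀ / 2 := by
    have : (1 + 2 / P.u 0) * ε = c₀ / 4 := by rw [hε]; field_simp
    rw [this]; linarith
  obtain ⟨η, hη, hηov⟩ := exists_eta P D
  obtain ⟨lmin, lmax, hl0, hl1, hl⟩ := UDec_bounds P
  set E : ℝ := ∑ a, P.N (rv (ev a)) with hE
  have hEa : ∀ a, P.N (rv (ev a)) ≤ E := fun a =>
    Finset.single_le_sum (f := fun a => P.N (rv (ev a))) (fun a _ => P.N_nonneg _)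
      (Finset.mem_univ a)
  have hE0 : 0 ≤ E := Finset.sum_nonneg fun a _ => P.N_nonneg _
  set K : ℝ := E + max D 0 with hK
  have hK0 : 0 ≤ K := add_nonneg hE0 (le_max_right _ _)
  set G : ℝ := 1 + (m + 1) + 4 * ((m : ℝ) + 1 + 1) * lmax / η with hG
  have hlmax : 0 < lmax := lt_of_lt_of_le hl0 hl1
  have hGp : 0 ≤ 4 * ((m : ℝ) + 1 + 1) * lmax / η := by positivity
  have hm0 : (0 : ℝ) ≤ m := Nat.cast_nonneg m
  have hG1 : 1 ≤ G := by rw [hG]; linarith
  have hGd : ((m + 1 : ℕ) : ℝ) ≤ G := by rw [hG]; push_cast; linarith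
  have hGη : ∀ a, 4 * (((m + 1 : ℕ) : ℝ) + 1) * P.ell a ≤ η * G := by
    intro a
    have h1 : 4 * (((m + 1 : ℕ) : ℝ) + 1) * P.ell a ≤ 4 * ((m : ℝ) + 1 + 1) * lmax := by
      push_cast
      exact mul_le_mul_of_nonneg_left (hl a).2 (by positivity)
    have h2 : η * (4 * ((m : ℝ) + 1 + 1) * lmax / η) = 4 * ((m : ℝ) + 1 + 1) * lmax := by
      field_simp
    have h3 : η * (4 * ((m : ℝ) + 1 + 1) * lmax / η) ≤ η * G :=
      mul_le_mul_of_nonneg_left (by rw [hG]; linarith) hη.le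
    linarith
  have hlamt : Tendsto (fun n : ℕ => P.lam ^ n) atTop atTop :=
    tendsto_pow_atTop_atTop_of_one_lt P.lam_gt
  have het : Tendsto (fun n : ℕ => P.c * (P.rho ^ n * K)) atTop (nhds 0) := by
    have h1 := tendsto_pow_atTop_nhds_zero_of_lt_one P.rho_nonneg P.rho_lt
    have h2 := (h1.mul_const K).const_mul P.c
    simpa using h2
  set K1 : ℝ := (∑ j, P.ell j) + (∑ j, P.ell j * P.u j) * ((1 + G) / P.u 0) with hK1
  set K2 : ℝ := (∑ j, P.ell j) + (∑ j, P.ell j * P.u j) * ((1 + 1) / P.u 0) with hK2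
  have ev1 : ∀ᶠ n : ℕ in atTop, P.c * (P.rho ^ n * K) <
      min (1 / 3) (c₀ / 2 / (3 * (1 + 1 / P.u 0))) :=
    het.eventually (gt_mem_nhds (lt_min (by norm_num) (by positivity)))
  have ev2 : ∀ᶠ n : ℕ in atTop, K1 / lmin ≤ P.lam ^ n := hlamt.eventually (eventually_ge_atTop _)
  have ev3 : ∀ᶠ n : ℕ in atTop, K2 / (η / 4) ≤ P.lam ^ n :=
    hlamt.eventually (eventually_ge_atTop _)
  filter_upwards [ev1, ev2, ev3] with n h1 h2 h3 x hx τ hτ hnc a b v hv hO
  have hab : ∀ a, ab (τ a) = (M ^ n).mulVec (ev a) := fun a => by rw [ab_subst, hτ]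
  have he0 : 0 ≤ P.c * (P.rho ^ n * K) :=
    mul_nonneg P.c_pos.le (mul_nonneg (pow_nonneg P.rho_nonneg n) hK0)
  have hL : 0 < P.lam ^ n := pow_pos (by linarith [P.lam_gt]) n
  rw [hτ]
  refine hit_core P 0 c₀ hc0 hc₀ (P.c * (P.rho ^ n * K)) (P.lam ^ n) η ε he0 ?_ ?_ hη hL hε0.le hε1
    hεc x hx (τ a) (τ b) ((M ^ n).mulVec v) (hnc a) (hnc b) ?_ ?_ ?_ (P.ell a) (P.ell b) (P.ht v)
    (P.ell_pos a) (P.ell_pos b) ?_ ?_ ?_ ?_ G hG1 hGd (hGη a) ?_ ?_
  · have h4 := h1.le.trans (min_le_right _ _)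
    have h5 : 0 < 1 + 1 / P.u 0 := by positivity
    rw [le_div_iff₀ (by positivity)] at h4
    linarith
  · have h4 := h1.le.trans (min_le_left _ _)
    linarith
  · intro j
    rw [hab]
    exact col_close P n (ev a) K ((hEa a).trans (by
      rw [hK]; have := le_max_right D 0; linarith)) j
  · intro j
    rw [hab]
    exact col_close P n (ev b) K ((hEa b).trans (by
      rw [hK]; have := le_max_right D 0; linarith)) j
  · intro j
    exact col_close P n v K (hv.trans (by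
      rw [hK]; have := le_max_left D 0; linarith)) j
  · rw [hab, col_ht, ht_ev]
  · rw [hab, col_ht, ht_ev]
  · exact col_ht P n v
  · have h4 := hηov a b v hv hO
    unfold PD.OV ovl at h4 hO
    simp only [ht_zero, zero_add] at h4 hO
    rcases le_max_iff.1 h4 with h5 | h5
    · linarith
    · exact h5
  · rw [div_le_iff₀ hl0] at h2
    refine h2.trans (mul_le_mul_of_nonneg_left (le_min (hl a).1 (hl b).1) hL.le)
  · rw [div_le_iff₀ (by positivity)] at h3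
    exact h3

/-- prefixes of near cutting words -/
theorem near_prefix {M : Matrix (Fin d) (Fin d) ℤ} (P : PD M) (n : ℕ) (ε : ℝ) (hε1 : ε ≤ 1)
    (x : Fin d → ℝ) (hx : ∀ j, 0 ≤ x j ∧ x j ≤ 1) (τ : Fin d → List (Fin d))
    (hτ : inc τ = M ^ n) (hnc : ∀ a, NearCut ε x (τ a)) (a : Fin d) (k : ℕ) :
    P.N (rv (ab ((τ a).take k))) ≤
      P.c * (P.c * (∑ a, P.N (rv (ev a))) + 2 + 2 * d) := by
  set E : ℝ := ∑ a, P.N (rv (ev a)) with hE
  have hEa : P.N (rv (ev a)) ≤ E :=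
    Finset.single_le_sum (f := fun a => P.N (rv (ev a))) (fun a _ => P.N_nonneg _)
      (Finset.mem_univ a)
  have hE0 : 0 ≤ E := Finset.sum_nonneg fun a _ => P.N_nonneg _
  obtain ⟨k', hk', hkk⟩ : ∃ k' ≤ (τ a).length, (τ a).take k = (τ a).take k' := by
    rcases le_total k (τ a).length with h | h
    · exact ⟨k, h, rfl⟩
    · exact ⟨(τ a).length, le_rfl, by rw [List.take_of_length_le h, List.take_length]⟩
  rw [hkk]
  obtain ⟨t, ht0, ht1, ht⟩ := hnc a k' hk'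
  refine P.N_le _ _ fun i => ?_
  simp only [rv]
  set V : Fin d → ℝ := fun j => (ab (τ a) j : ℝ) with hV
  set r : Fin d → ℝ := fun j => (ab ((τ a).take k') j : ℝ) - t * V j with hr
  have hr2 : ∀ j, |r j| ≤ 2 := by
    intro j
    have h1 := ht j
    have h2 := hx j
    rw [hr, abs_le]
    simp only [hV]
    constructor <;> linarith [h1.1, h1.2, h2.1, h2.2]
  have hVc : |V i - (∑ l, V l) * P.u i| ≤ P.c * E := by
    have hab : ab (τ a) = (M ^ n).mulVec (ev a) := by rw [ab_subst, hτ]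
    have h1 := col_close P n (ev a) E hEa i
    rw [← hab] at h1
    refine h1.trans (mul_le_mul_of_nonneg_left ?_ P.c_pos.le)
    exact mul_le_of_le_one_left hE0 (pow_le_one₀ P.rho_nonneg P.rho_lt.le)
  have hsum : ∑ j, (ab ((τ a).take k') j : ℝ) = t * (∑ l, V l) + ∑ l, r l := by
    rw [Finset.mul_sum, ← Finset.sum_add_distrib]
    exact Finset.sum_congr rfl fun j _ => by rw [hr]; ring
  have hrs : |∑ l, r l| ≤ 2 * d := by
    refine (Finset.abs_sum_le_sum_abs _ _).trans ?_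
    refine (Finset.sum_le_sum fun j _ => hr2 j).trans ?_
    simp [mul_comm]
  have e1 : (ab ((τ a).take k') i : ℝ) - (∑ j, (ab ((τ a).take k') j : ℝ)) * P.u i =
      t * (V i - (∑ l, V l) * P.u i) + (r i - (∑ l, r l) * P.u i) := by
    rw [hsum, hr]; ring
  rw [e1]
  have h3 : |t * (V i - (∑ l, V l) * P.u i)| ≤ P.c * E := by
    rw [abs_mul, abs_of_nonneg ht0]
    have := abs_nonneg (V i - (∑ l, V l) * P.u i)
    nlinarith
  have h4 : |(∑ l, r l) * P.u i| ≤ 2 * d := by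
    rw [abs_mul, abs_of_pos (P.u_pos i)]
    have := u_le_one P i
    have := abs_nonneg (∑ l, r l)
    have := (P.u_pos i).le
    nlinarith
  have h5 := abs_add_le (t * (V i - (∑ l, V l) * P.u i)) (r i - (∑ l, r l) * P.u i)
  have h6 := abs_sub (r i) ((∑ l, r l) * P.u i)
  have h7 := hr2 i
  linarith

/-- prefixes of compositions -/
theorem comp_prefix {M : Matrix (Fin d) (Fin d) ℤ} (P : PD M) (S T : Fin d → List (Fin d))
    (k : ℕ) (hS : inc S = M ^ k) (BS BT : ℝ)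
    (hBS : ∀ a j, P.N (rv (ab ((S a).take j))) ≤ BS)
    (hBT : ∀ a j, P.N (rv (ab ((T a).take j))) ≤ BT) (a : Fin d) (j : ℕ) :
    P.N (rv (ab ((comp S T a).take j))) ≤ BT + BS := by
  have hT0 : 0 ≤ BT := (P.N_nonneg _).trans (hBT a 0)
  rcases DBd_take_ext S (T a) j with h | ⟨i, j', b, h⟩
  · have h1 : (comp S T a).take j = (S a).take 0 := by
      rw [List.take_zero]; exact h
    rw [h1]
    have := hBS a 0
    linarith
  · have h1 : (comp S T a).take j = ext S ((T a).take i) ++ (S b).take j' := h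
    rw [h1, ab_append, ab_ext, rv_add, hS]
    have h2 := P.N_add (rv ((M ^ k).mulVec (ab ((T a).take i)))) (rv (ab ((S b).take j')))
    have h3 := N_pow_mulVec P k (ab ((T a).take i))
    have h4 : P.rho ^ k * P.N (rv (ab ((T a).take i))) ≤ P.N (rv (ab ((T a).take i))) :=
      mul_le_of_le_one_left (P.N_nonneg _) (pow_le_one₀ P.rho_nonneg P.rho_lt.le)
    have h5 := hBT a i
    have h6 := hBS b j'
    linarith

/-- main theorem -/
theorem main {m : ℕ} (M : Matrix (Fin (m+1)) (Fin (m+1)) ℤ)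
    (hnn : ∀ i j, 0 ≤ M i j) (hM : PisotMat M) :
    (∀ (n : ℕ) (x : Fin (m+1) → ℝ), (∀ j, 0 ≤ x j ∧ x j ≤ 1) →
      ∃ τ : Fin (m+1) → List (Fin (m+1)), inc τ = M ^ n ∧ ∀ a, NearCut 0 x (τ a)) ∧
    ∃ ε : ℝ, 0 < ε ∧ ∃ n₀ : ℕ, ∀ n ≥ n₀, ∀ x : Fin (m+1) → ℝ, (∀ j, 0 ≤ x j ∧ x j ≤ 1) →
      ∀ τ : Fin (m+1) → List (Fin (m+1)), inc τ = M ^ n → (∀ a, NearCut ε x (τ a)) →
      ∀ l l' : List (Fin (m+1) → List (Fin (m+1))), (∀ ρ ∈ l, inc ρ = M) →
        (∀ ρ ∈ l', inc ρ = M) →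
        SemiConjToral (comp (compList l) (comp τ (compList l'))) := by
  constructor
  · intro n x hx
    have h1 : ∀ a, ∃ w : List (Fin (m+1)), ab w = (fun i => (M ^ n) i a) ∧ NearCut 0 x w :=
      fun a => exists_cut _ (fun i => GFin_pow_nonneg M hnn n i a) x hx
    choose τ hτ hnc using h1
    refine ⟨τ, ?_, hnc⟩
    ext i a
    exact congrFun (hτ a) i
  obtain ⟨lam, u, hlam, hu, husum⟩ := exists_u M hnn hM
  obtain ⟨P, -, -⟩ := exists_PD M hnn hM lam hlam u hu husum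
  have hdet : IsUnit M.det := by
    rcases hM.2.1 with h | h
    · rw [h]; exact isUnit_one
    · rw [h]; exact isUnit_one.neg
  obtain ⟨ε, hε0, hε1, hhit⟩ := hit_near P
  refine ⟨ε, hε0, ?_⟩
  set E : ℝ := ∑ a, P.N (rv (ev a)) with hE
  have hEa : ∀ a, P.N (rv (ev a)) ≤ E := fun a =>
    Finset.single_le_sum (f := fun a => P.N (rv (ev a))) (fun a _ => P.N_nonneg _)
      (Finset.mem_univ a)
  have hE0 : 0 ≤ E := Finset.sum_nonneg fun a _ => P.N_nonneg _
  have hr : 0 < 1 - P.rho := by linarith [P.rho_lt]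
  set B1 : ℝ := P.c * ∑ i, ∑ j, (M i j : ℝ) with hB1
  have hB10 : 0 ≤ B1 := mul_nonneg P.c_pos.le (JFin_sum_pos P hnn).le
  set BL : ℝ := B1 / (1 - P.rho) + E with hBL
  have hBL0 : 0 ≤ BL := add_nonneg (div_nonneg hB10 hr.le) hE0
  set Bt : ℝ := P.c * (P.c * E + 2 + 2 * ((m + 1 : ℕ) : ℝ)) with hBt
  have hBt0 : 0 ≤ Bt := by
    have := P.c_pos
    positivity
  set BS : ℝ := (BL + Bt) + BL with hBS
  have hBS0 : 0 ≤ BS := by rw [hBS]; linarith
  set D : ℝ := max ((16 * P.c ^ 2 + 4) * BS) (2 * B1 / (1 - P.rho)) with hD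
  have hD1 : (16 * P.c ^ 2 + 4) * BS ≤ D := le_max_left _ _
  have hD2 : 2 * B1 ≤ (1 - P.rho) * D := by
    have h1 : 2 * B1 / (1 - P.rho) ≤ D := le_max_right _ _
    rw [div_le_iff₀ hr] at h1
    linarith
  have hrt : ∀ᶠ n : ℕ in atTop, P.rho ^ n < 1 / 2 :=
    (tendsto_pow_atTop_nhds_zero_of_lt_one P.rho_nonneg P.rho_lt).eventually
      (gt_mem_nhds (by norm_num))
  obtain ⟨n₀, hn₀⟩ := eventually_atTop.1 ((hhit D).and (hrt.and (eventually_ge_atTop 1)))
  refine ⟨n₀, fun n hn x hx τ hτ hnc l l' hl hl' => ?_⟩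
  obtain ⟨hh, hrn, hn1⟩ := hn₀ n hn
  have hhit1 := hh x hx τ hτ hnc
  have hlB : ∀ ρ ∈ l, inc ρ = M ∧ ∀ a k, P.N (rv (ab ((ρ a).take k))) ≤ B1 := fun ρ h =>
    ⟨hl ρ h, fun a k => JFin_BT P hnn ρ (hl ρ h) a k⟩
  have hlB' : ∀ ρ ∈ l', inc ρ = M ∧ ∀ a k, P.N (rv (ab ((ρ a).take k))) ≤ B1 := fun ρ h =>
    ⟨hl' ρ h, fun a k => JFin_BT P hnn ρ (hl' ρ h) a k⟩
  have hpl : ∀ a k, P.N (rv (ab ((compList l a).take k))) ≤ BL := fun a k =>
    (compList_prefix P l B1 hB10 hlB a k).trans (by rw [hBL]; linarith [hEa a])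
  have hpl' : ∀ a k, P.N (rv (ab ((compList l' a).take k))) ≤ BL := fun a k =>
    (compList_prefix P l' B1 hB10 hlB' a k).trans (by rw [hBL]; linarith [hEa a])
  have hpt : ∀ a k, P.N (rv (ab ((τ a).take k))) ≤ Bt := fun a k =>
    near_prefix P n ε hε1.le x hx τ hτ hnc a k
  have hpi : ∀ a k, P.N (rv (ab ((comp τ (compList l') a).take k))) ≤ BL + Bt :=
    comp_prefix P τ (compList l') n hτ Bt BL hpt hpl'
  have hincl : inc (compList l) = M ^ l.length := inc_compList M l hl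
  have hincl' : inc (compList l') = M ^ l'.length := inc_compList M l' hl'
  have hpS : ∀ a k, P.N (rv (ab ((comp (compList l) (comp τ (compList l')) a).take k))) ≤ BS :=
    comp_prefix P (compList l) (comp τ (compList l')) l.length hincl BL (BL + Bt) hpl hpi
  have hhitS : P.Hit (comp (compList l) (comp τ (compList l'))) D := by
    refine hit_comp_right P _ _ (JList_comp_ne_nil P l hl) D ?_
    exact hit_comp_left P τ (compList l') D D (JList_ovTo P l' B1 D hlB' hD2) hhit1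
  have hincS : inc (comp (compList l) (comp τ (compList l'))) =
      (M ^ (l.length + (n + l'.length))) ^ 1 := by
    rw [inc_comp, inc_comp, hincl, hincl', hτ, pow_one, pow_add, pow_add]
  have hN1 : 1 ≤ l.length + (n + l'.length) := by omega
  refine JFin_semi (P.pow (l.length + (n + l'.length)) hN1) ?_ BS D hBS0 hD1 ?_ 1 le_rfl _ hincS
    hpS ?_
  · rw [Matrix.det_pow]; exact hdet.pow _
  · change P.rho ^ (l.length + (n + l'.length)) ≤ 1 / 2
    exact (pow_le_pow_of_le_one P.rho_nonneg P.rho_lt.le (by omega)).trans hrn.le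
  · exact hhitS

end Pool.Agent.TH990.PB
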