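import Pool.Agent.TH990.PB.Cut

/-! Near cutting words have coincidences. -/

namespace Pool.Agent.TH990.PB

open scoped BigOperators
open Pool.Agent.H812R2.PI

variable {d : ℕ}

theorem u_le_one {M : Matrix (Fin d) (Fin d) ℤ} (P : PD M) (j : Fin d) : P.u j ≤ 1 := by
  rw [← P.u_sum]
  exact Finset.single_le_sum (f := P.u) (fun j _ => (P.u_pos j).le) (Finset.mem_univ j)

/-- overlaps are bounded below -/
theorem exists_eta {M : Matrix (Fin d) (Fin d) ℤ} (P : PD M) (D : ℝ) :
    ∃ η : ℝ, 0 < η ∧ ∀ (a b : Fin d) (v : Fin d → ℤ), P.N (rv v) ≤ D →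
      0 < P.OV (0, a) (v, b) → η ≤ P.OV (0, a) (v, b) := by
  classical
  obtain ⟨lmin, lmax, hl0, hl1, hl⟩ := UDec_bounds P
  have hfin := window_finite P D lmax
  set F : Finset (Fin d × Fin d × (Fin d → ℤ)) :=
    ((Finset.univ : Finset (Fin d)) ×ˢ (Finset.univ : Finset (Fin d)) ×ˢ hfin.toFinset).filter
      (fun t => 0 < P.OV (0, t.1) (t.2.2, t.2.1)) with hF
  have hmem : ∀ (a b : Fin d) (v : Fin d → ℤ), P.N (rv v) ≤ D →
      0 < P.OV (0, a) (v, b) → (a, b, v) ∈ F := by
    intro a b v hv hO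
    rw [hF, Finset.mem_filter]
    refine ⟨?_, hO⟩
    simp only [Finset.mem_product, Finset.mem_univ, true_and, Set.Finite.mem_toFinset]
    refine ⟨hv, ?_⟩
    have h1 : 0 < min (P.ht 0 + P.ell a) (P.ht v + P.ell b) - max (P.ht 0) (P.ht v) := by
      unfold PD.OV ovl at hO
      simp only at hO
      by_contra hcon
      push Not at hcon
      rw [max_eq_left hcon] at hO
      exact lt_irrefl _ hO
    rw [ht_zero, zero_add] at h1
    have h2 := min_le_left (P.ell a) (P.ht v + P.ell b)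
    have h3 := min_le_right (P.ell a) (P.ht v + P.ell b)
    have h4 := le_max_left 0 (P.ht v)
    have h5 := le_max_right 0 (P.ht v)
    have h6 := (hl a).2
    have h7 := (hl b).2
    rw [abs_le]
    constructor <;> linarith
  rcases F.eq_empty_or_nonempty with h0 | h0
  · refine ⟨1, one_pos, fun a b v hv hO => ?_⟩
    have := hmem a b v hv hO
    rw [h0] at this
    simp at this
  · obtain ⟨t, ht, hmin⟩ := Finset.exists_min_image F (fun t => P.OV (0, t.1) (t.2.2, t.2.1)) h0
    refine ⟨P.OV (0, t.1) (t.2.2, t.2.1), ?_, fun a b v hv hO => hmin (a, b, v) (hmem a b v hv hO)⟩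
    rw [hF, Finset.mem_filter] at ht
    exact ht.2

/-- quantitative irrationality -/
theorem exists_c0 {M : Matrix (Fin d) (Fin d) ℤ} (P : PD M) (i : Fin d) :
    ∃ c₀ : ℝ, 0 < c₀ ∧ c₀ ≤ 1 ∧ ∀ k : ℕ, 1 ≤ k → k ≤ d → ∀ j, j ≠ i → ∀ p : ℤ,
      3 * c₀ ≤ |(p : ℝ) * P.u i - k * P.u j| := by
  classical
  have hi := P.u_pos i
  have key : ∀ t : Fin (d + 1) × Fin d, ∃ c : ℝ, 0 < c ∧ (1 ≤ (t.1 : ℕ) → t.2 ≠ i →
      ∀ p : ℤ, c ≤ |(p : ℝ) * P.u i - (t.1 : ℕ) * P.u t.2|) := by
    intro t
    by_cases hk : 1 ≤ (t.1 : ℕ)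
    · by_cases hj : t.2 = i
      · exact ⟨1, one_pos, fun _ h => absurd hj h⟩
      · set r : ℝ := ((t.1 : ℕ) : ℝ) * P.u t.2 / P.u i with hr
        have hne : r - round r ≠ 0 := by
          intro h0
          have h1 : ((t.1 : ℕ) : ℝ) * P.u t.2 - (round r : ℝ) * P.u i = 0 := by
            have : r * P.u i = ((t.1 : ℕ) : ℝ) * P.u t.2 := by rw [hr]; field_simp
            rw [← this]
            have : r = round r := by linarith
            rw [← sub_mul]
            rw [h0, zero_mul]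
          have h2 := P.u_ind (fun l => if l = t.2 then ((t.1 : ℕ) : ℤ) else
            if l = i then - round r else 0) (by
              have h3 : ∀ l, (((if l = t.2 then ((t.1 : ℕ) : ℤ) else
                  if l = i then - round r else 0 : ℤ)) : ℝ) * P.u l =
                  (if l = t.2 then ((t.1 : ℕ) : ℝ) * P.u t.2 else 0) +
                  (if l = i then - (round r : ℝ) * P.u i else 0) := by
                intro l
                by_cases hl1 : l = t.2
                · rw [if_pos hl1, if_pos hl1, if_neg (by rw [hl1]; exact hj), hl1]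
                  push_cast; ring
                · by_cases hl2 : l = i
                  · rw [if_neg hl1, if_neg hl1, if_pos hl2, if_pos hl2, hl2]
                    push_cast; ring
                  · rw [if_neg hl1, if_neg hl1, if_neg hl2, if_neg hl2]
                    push_cast; ring
              rw [Finset.sum_congr rfl fun l _ => h3 l, Finset.sum_add_distrib]
              simp
              linarith)
          have h3 := congrFun h2 t.2
          simp only [if_true, Pi.zero_apply] at h3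
          omega
        refine ⟨P.u i * |r - round r|, mul_pos hi (abs_pos.2 hne), fun _ _ p => ?_⟩
        have h1 : (p : ℝ) * P.u i - ((t.1 : ℕ) : ℝ) * P.u t.2 = - (P.u i * (r - p)) := by
          rw [hr]; field_simp; ring
        rw [h1, abs_neg, abs_mul, abs_of_pos hi]
        exact mul_le_mul_of_nonneg_left (round_le r p) hi.le
    · exact ⟨1, one_pos, fun h => absurd h hk⟩
  choose f hf0 hf using key
  have hne : Nonempty (Fin (d + 1) × Fin d) := ⟨(0, i)⟩
  obtain ⟨t0, ht0⟩ := Finite.exists_min f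
  refine ⟨min (f t0 / 3) 1, lt_min (by have := hf0 t0; positivity) one_pos, min_le_right _ _, ?_⟩
  intro k hk hkd j hj p
  have h1 := hf (⟨k, by omega⟩, j) hk hj p
  have h2 := ht0 (⟨k, by omega⟩, j)
  have h3 := min_le_left (f t0 / 3) 1
  simp only at h1
  linarith

/-- among `d` consecutive crossings of the hyperplanes `y_i = integer` one is far from the lower
dimensional faces -/
theorem good_crossing {M : Matrix (Fin d) (Fin d) ℤ} (P : PD M) (i : Fin d) (c₀ : ℝ)
    (hc₀ : ∀ k : ℕ, 1 ≤ k → k ≤ d → ∀ j, j ≠ i → ∀ p : ℤ,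
      3 * c₀ ≤ |(p : ℝ) * P.u i - k * P.u j|) (e : ℝ) (he : 2 * e < c₀)
    (V : Fin d → ℝ) (hVi : (d : ℝ) ≤ V i) (hVi0 : 0 < V i)
    (hV : ∀ j, |V j - (∑ l, V l) * P.u j| ≤ e) (x : Fin d → ℝ) (q0 : ℤ) :
    ∃ k : ℕ, k < d ∧ ∀ j, j ≠ i → ∀ p : ℤ,
      c₀ ≤ |x j + ((q0 + k - x i) / V i) * V j - p| := by
  classical
  by_contra hcon
  push Not at hcon
  have hcon' : ∀ k : Fin d, ∃ j : {j : Fin d // j ≠ i}, ∃ p : ℤ,
      |x j.1 + ((q0 + (k : ℕ) - x i) / V i) * V j.1 - p| < c₀ := by
    intro k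
    obtain ⟨j, hj, p, hp⟩ := hcon k k.2
    exact ⟨⟨j, hj⟩, p, hp⟩
  choose f g hfg using hcon'
  have hcard : Fintype.card {j : Fin d // j ≠ i} < Fintype.card (Fin d) :=
    Fintype.card_subtype_lt (x := i) (by simp)
  obtain ⟨k1, k2, hne, hf⟩ := Fintype.exists_ne_map_eq_of_card_lt f hcard
  have main : ∀ k k' : Fin d, (k : ℕ) < k' → f k = f k' → False := by
    intro k k' hkk hff
    have h1 := hfg k
    have h2 := hfg k'
    rw [hff] at h1
    set j := (f k').1 with hj
    have hji : j ≠ i := (f k').2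
    have hu := P.u_pos i
    have hui := u_le_one P i
    have huj0 := P.u_pos j
    have huj := u_le_one P j
    set s : ℝ := (((k' : ℕ) : ℝ) - (k : ℕ)) / V i with hs
    have hs0 : 0 ≤ s := div_nonneg (by
      have : ((k : ℕ) : ℝ) ≤ (k' : ℕ) := by exact_mod_cast hkk.le
      linarith) hVi0.le
    have hs1 : s ≤ 1 := by
      rw [hs, div_le_one hVi0]
      have : ((k' : ℕ) : ℝ) ≤ d := by exact_mod_cast k'.2.le
      have : (0 : ℝ) ≤ (k : ℕ) := by positivity
      linarith
    have hsV : s * V i = ((k' : ℕ) : ℝ) - (k : ℕ) := by rw [hs]; field_simp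
    have h3 : |s * V j - ((g k' : ℝ) - g k)| < 2 * c₀ := by
      have h4 : s * V j - ((g k' : ℝ) - g k) =
          (x j + ((q0 + (k' : ℕ) - x i) / V i) * V j - g k') -
          (x j + ((q0 + (k : ℕ) - x i) / V i) * V j - g k) := by
        rw [hs]; field_simp; ring
      rw [h4]
      exact (abs_sub _ _).trans_lt (by linarith)
    have h5 := hc₀ ((k' : ℕ) - (k : ℕ)) (by omega) (by omega) j hji (g k' - g k)
    have h6 : (((k' : ℕ) - (k : ℕ) : ℕ) : ℝ) = s * V i := by
      rw [hsV, Nat.cast_sub hkk.le]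
    rw [h6] at h5
    have h7 : ((g k' - g k : ℤ) : ℝ) * P.u i - s * V i * P.u j =
        -((s * V j - ((g k' : ℝ) - g k)) * P.u i) +
        s * ((V j - (∑ l, V l) * P.u j) * P.u i - (V i - (∑ l, V l) * P.u i) * P.u j) := by
      push_cast; ring
    have h8 : |(V j - (∑ l, V l) * P.u j) * P.u i - (V i - (∑ l, V l) * P.u i) * P.u j| ≤
        2 * e := by
      have he0 : 0 ≤ e := (abs_nonneg _).trans (hV i)
      have a1 : |(V j - (∑ l, V l) * P.u j) * P.u i| ≤ e := by
        rw [abs_mul, abs_of_pos hu]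
        exact (mul_le_mul (hV j) hui hu.le he0).trans (by linarith)
      have a2 : |(V i - (∑ l, V l) * P.u i) * P.u j| ≤ e := by
        rw [abs_mul, abs_of_pos huj0]
        exact (mul_le_mul (hV i) huj huj0.le he0).trans (by linarith)
      exact (abs_sub _ _).trans (by linarith)
    have h9 : |s * ((V j - (∑ l, V l) * P.u j) * P.u i -
        (V i - (∑ l, V l) * P.u i) * P.u j)| ≤ 2 * e := by
      rw [abs_mul, abs_of_nonneg hs0]
      have := abs_nonneg ((V j - (∑ l, V l) * P.u j) * P.u i -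
        (V i - (∑ l, V l) * P.u i) * P.u j)
      nlinarith
    have h10 : |(s * V j - ((g k' : ℝ) - g k)) * P.u i| ≤ 2 * c₀ := by
      rw [abs_mul, abs_of_pos hu]
      have := abs_nonneg (s * V j - ((g k' : ℝ) - g k))
      nlinarith
    rw [h7] at h5
    have h11 := abs_add_le (-((s * V j - ((g k' : ℝ) - g k)) * P.u i))
      (s * ((V j - (∑ l, V l) * P.u j) * P.u i - (V i - (∑ l, V l) * P.u i) * P.u j))
    rw [abs_neg] at h11
    linarith
  rcases lt_or_gt_of_ne (fun h => hne (Fin.ext h) : (k1 : ℕ) ≠ k2) with h | h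
  · exact main k1 k2 h hf
  · exact main k2 k1 h hf.symm

/-- a vector close to the direction `u` with large height has large coordinates -/
theorem coord_ge {M : Matrix (Fin d) (Fin d) ℤ} (P : PD M) (i : Fin d) (w : Fin d → ℝ) (e G : ℝ)
    (hw : ∀ j, |w j - (∑ l, w l) * P.u j| ≤ e)
    (hH : (∑ j, P.ell j) * e + (∑ j, P.ell j * P.u j) * ((e + G) / P.u i) ≤
      ∑ j, P.ell j * w j) : G ≤ w i := by
  have hu := P.u_pos i
  have hκ : 0 < ∑ j, P.ell j * P.u j :=
    Finset.sum_pos (fun j _ => mul_pos (P.ell_pos j) (P.u_pos j)) ⟨i, Finset.mem_univ i⟩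
  have h1 : ∑ j, P.ell j * w j = ∑ j, P.ell j * (w j - (∑ l, w l) * P.u j) +
      (∑ l, w l) * ∑ j, P.ell j * P.u j := by
    rw [Finset.mul_sum, ← Finset.sum_add_distrib]
    exact Finset.sum_congr rfl fun j _ => by ring
  have h2 : ∑ j, P.ell j * (w j - (∑ l, w l) * P.u j) ≤ (∑ j, P.ell j) * e := by
    rw [Finset.sum_mul]
    exact Finset.sum_le_sum fun j _ =>
      mul_le_mul_of_nonneg_left ((le_abs_self _).trans (hw j)) (P.ell_pos j).le
  have h3 : (∑ j, P.ell j * P.u j) * ((e + G) / P.u i) ≤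
      (∑ j, P.ell j * P.u j) * ∑ l, w l := by linarith
  have h4 : (e + G) / P.u i ≤ ∑ l, w l := le_of_mul_le_mul_left h3 hκ
  rw [div_le_iff₀ hu] at h4
  have h5 := (abs_le.1 (hw i)).1
  linarith

end Pool.Agent.TH990.PB
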