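import Pool.Agent.TH990.PB.Hit

/-! Near cutting words: the Pisot substitution conjecture. -/

namespace Pool.Agent.TH990.PB

open scoped BigOperators
open Pool.Agent.H812R2.PI

/-- The geometric core. `A = M^n e_a`, `B' = M^n e_b`, `W = M^n v`. -/
theorem hit_core {d : ℕ} {M : Matrix (Fin d) (Fin d) ℤ} (P : PD M) (i : Fin d) (c₀ : ℝ)
    (hc0 : 0 < c₀)
    (hc₀ : ∀ k : ℕ, 1 ≤ k → k ≤ d → ∀ j, j ≠ i → ∀ p : ℤ,
      3 * c₀ ≤ |(p : ℝ) * P.u i - k * P.u j|)
    (e L η ε : ℝ) (he0 : 0 ≤ e) (he : 3 * e * (1 + 1 / P.u i) ≤ c₀ / 2) (he1 : 3 * e ≤ 1)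
    (hη : 0 < η) (hL : 0 < L) (hε : 0 ≤ ε) (hε1 : ε < 1)
    (hεc : (1 + 2 / P.u i) * ε < c₀ / 2)
    (x : Fin d → ℝ) (hx : ∀ j, 0 ≤ x j ∧ x j ≤ 1)
    (wa wb : List (Fin d)) (W : Fin d → ℤ) (hta : NearCut ε x wa) (htb : NearCut ε x wb)
    (hA : ∀ j, |(ab wa j : ℝ) - (∑ l, (ab wa l : ℝ)) * P.u j| ≤ e)
    (hB : ∀ j, |(ab wb j : ℝ) - (∑ l, (ab wb l : ℝ)) * P.u j| ≤ e)
    (hW : ∀ j, |(W j : ℝ) - (∑ l, (W l : ℝ)) * P.u j| ≤ e)
    (la lb hv : ℝ) (hla : 0 < la) (hlb : 0 < lb)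
    (hHA : ∑ j, P.ell j * (ab wa j : ℝ) = L * la) (hHB : ∑ j, P.ell j * (ab wb j : ℝ) = L * lb)
    (hHW : ∑ j, P.ell j * (W j : ℝ) = L * hv)
    (hov : η ≤ min la (hv + lb) - max 0 hv)
    (G : ℝ) (hG1 : 1 ≤ G) (hGd : (d : ℝ) ≤ G) (hGη : 4 * ((d : ℝ) + 1) * la ≤ η * G)
    (hLG : (∑ j, P.ell j) + (∑ j, P.ell j * P.u j) * ((1 + G) / P.u i) ≤ L * min la lb)
    (hLη : (∑ j, P.ell j) + (∑ j, P.ell j * P.u j) * ((1 + 1) / P.u i) ≤ L * (η / 4)) :
    ∃ g, g ∈ edges 0 wa ∧ g ∈ edges W wb := by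
  have hu := P.u_pos i
  have hui := u_le_one P i
  have hκ : 0 < ∑ j, P.ell j * P.u j :=
    Finset.sum_pos (fun j _ => mul_pos (P.ell_pos j) (P.u_pos j)) ⟨i, Finset.mem_univ i⟩
  have hLs : 0 ≤ ∑ j, P.ell j := Finset.sum_nonneg fun j _ => (P.ell_pos j).le
  have hinv : 1 ≤ 1 / P.u i := by rw [le_div_iff₀ hu]; linarith
  have hec : 3 * e ≤ c₀ / 2 :=
    (le_mul_of_one_le_right (by linarith) (by linarith)).trans he
  have he2 : 2 * e < c₀ := by linarith
  -- lower bound for the coordinates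
  have cg : ∀ (w : Fin d → ℝ) (G' : ℝ), (∀ j, |w j - (∑ l, w l) * P.u j| ≤ 3 * e) →
      (∑ j, P.ell j) + (∑ j, P.ell j * P.u j) * ((1 + G') / P.u i) ≤ ∑ j, P.ell j * w j →
      G' ≤ w i := by
    intro w G' h1 h2
    refine coord_ge P i w (3 * e) G' h1 (le_trans (add_le_add ?_ ?_) h2)
    · exact mul_le_of_le_one_right hLs he1
    · refine mul_le_mul_of_nonneg_left ?_ hκ.le
      exact div_le_div_of_nonneg_right (by linarith) hu.le
  have hAi : G ≤ (ab wa i : ℝ) := cg (fun j => (ab wa j : ℝ)) G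
    (fun j => (hA j).trans (by linarith)) (by
      rw [hHA]
      exact hLG.trans (mul_le_mul_of_nonneg_left (min_le_left _ _) hL.le))
  have hBi : G ≤ (ab wb i : ℝ) := cg (fun j => (ab wb j : ℝ)) G
    (fun j => (hB j).trans (by linarith)) (by
      rw [hHB]
      exact hLG.trans (mul_le_mul_of_nonneg_left (min_le_right _ _) hL.le))
  have hAi0 : (0 : ℝ) < (ab wa i : ℝ) := by linarith
  have hBi0 : (0 : ℝ) < (ab wb i : ℝ) := by linarith
  -- ratio bound
  have ratio : ∀ w : List (Fin d), 1 ≤ (ab w i : ℝ) →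
      (∀ j, |(ab w j : ℝ) - (∑ l, (ab w l : ℝ)) * P.u j| ≤ e) →
      ∀ j, (ab w j : ℝ) ≤ 2 / P.u i * (ab w i : ℝ) := by
    intro w hw1 hw j
    have h1 : (ab w j : ℝ) ≤ ∑ l, (ab w l : ℝ) :=
      Finset.single_le_sum (f := fun l => (ab w l : ℝ))
        (fun l _ => by exact_mod_cast ab_nonneg w l) (Finset.mem_univ j)
    have h2 := (abs_le.1 (hw i)).1
    have h3 : (∑ l, (ab w l : ℝ)) * P.u i ≤ 2 * (ab w i : ℝ) := by linarith
    rw [div_mul_eq_mul_div, le_div_iff₀ hu]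
    exact (mul_le_mul_of_nonneg_right h1 hu.le).trans h3
  set α := max 0 hv with hα
  set β := min la (hv + lb) with hβ
  have hα0 : 0 ≤ α := le_max_left _ _
  have hαv : hv ≤ α := le_max_right _ _
  have hβa : β ≤ la := min_le_left _ _
  have hβb : β ≤ hv + lb := min_le_right _ _
  set ts := (α + β) / (2 * la) with hts
  have htsl : ts * la = (α + β) / 2 := by rw [hts]; field_simp
  have hts0 : 0 < ts := by
    rw [hts]; apply div_pos <;> linarith
  set q0 : ℤ := ⌈x i + ts * (ab wa i : ℝ)⌉ with hq0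
  obtain ⟨k, hk, hgood⟩ := good_crossing P i c₀ hc₀ e he2 (fun j => (ab wa j : ℝ))
    (hGd.trans hAi) hAi0 hA x q0
  set t : ℝ := ((q0 : ℝ) + k - x i) / (ab wa i : ℝ) with ht
  have htA : t * (ab wa i : ℝ) = (q0 : ℝ) + k - x i := by rw [ht]; field_simp
  have hq1 : x i + ts * (ab wa i : ℝ) ≤ q0 := Int.le_ceil _
  have hq2 : (q0 : ℝ) < x i + ts * (ab wa i : ℝ) + 1 := Int.ceil_lt_add_one _
  have hkd : (k : ℝ) ≤ d := by exact_mod_cast hk.le
  have hk0 : (0 : ℝ) ≤ k := Nat.cast_nonneg _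
  have htts : ts ≤ t := by
    rw [ht, le_div_iff₀ hAi0]; linarith
  have ht0 : 0 < t := lt_of_lt_of_le hts0 htts
  have htu : (t - ts) * (ab wa i : ℝ) ≤ d + 1 := by
    rw [sub_mul, htA]; linarith
  have htla : t * la ≤ (α + β) / 2 + η / 4 := by
    have h1 : (t - ts) * la ≤ η / 4 := by
      have h2 : (t - ts) * G ≤ d + 1 :=
        (mul_le_mul_of_nonneg_left hAi (by linarith)).trans htu
      have h3 : (t - ts) * la * G ≤ (d + 1) * la := by
        calc (t - ts) * la * G = ((t - ts) * G) * la := by ring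
          _ ≤ (d + 1) * la := mul_le_mul_of_nonneg_right h2 hla.le
      have h4 : (t - ts) * la * G ≤ (η / 4) * G := by linarith
      exact le_of_mul_le_mul_right h4 (by linarith)
    have h2 : t * la = (t - ts) * la + ts * la := by ring
    rw [h2, htsl]; linarith
  have htla2 : (α + β) / 2 ≤ t * la := by
    rw [← htsl]; exact mul_le_mul_of_nonneg_right htts hla.le
  have ht1 : t < 1 := by
    have : t * la < 1 * la := by rw [one_mul]; linarith
    exact lt_of_mul_lt_mul_right this hla.le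
  -- the vector w1
  set w1 : Fin d → ℝ := fun j => t * (ab wa j : ℝ) - (W j : ℝ) with hw1
  have hw1S : ∑ l, w1 l = t * (∑ l, (ab wa l : ℝ)) - ∑ l, (W l : ℝ) := by
    rw [hw1, Finset.sum_sub_distrib, Finset.mul_sum]
  have hw1pr : ∀ j, |w1 j - (∑ l, w1 l) * P.u j| ≤ 2 * e := by
    intro j
    have h1 : w1 j - (∑ l, w1 l) * P.u j = t * ((ab wa j : ℝ) - (∑ l, (ab wa l : ℝ)) * P.u j) -
        ((W j : ℝ) - (∑ l, (W l : ℝ)) * P.u j) := by
      rw [hw1S, hw1]; ring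
    rw [h1]
    refine (abs_sub _ _).trans ?_
    rw [abs_mul, abs_of_pos ht0]
    have h2 := hA j
    have h3 := hW j
    have h4 := abs_nonneg ((ab wa j : ℝ) - (∑ l, (ab wa l : ℝ)) * P.u j)
    have h5 := mul_le_mul ht1.le h2 h4 zero_le_one
    linarith
  have hw1H : ∑ j, P.ell j * w1 j = L * (t * la - hv) := by
    have : ∑ j, P.ell j * w1 j = t * (∑ j, P.ell j * (ab wa j : ℝ)) -
        ∑ j, P.ell j * (W j : ℝ) := by
      rw [Finset.mul_sum, ← Finset.sum_sub_distrib]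
      exact Finset.sum_congr rfl fun j _ => by rw [hw1]; ring
    rw [this, hHA, hHW]; ring
  have hw1i : 1 ≤ w1 i := by
    refine cg w1 1 (fun j => (hw1pr j).trans (by linarith)) ?_
    rw [hw1H]
    exact hLη.trans (mul_le_mul_of_nonneg_left (by linarith) hL.le)
  set w2 : Fin d → ℝ := fun j => (ab wb j : ℝ) - w1 j with hw2
  have hw2S : ∑ l, w2 l = (∑ l, (ab wb l : ℝ)) - ∑ l, w1 l := by
    rw [hw2, Finset.sum_sub_distrib]
  have hw2pr : ∀ j, |w2 j - (∑ l, w2 l) * P.u j| ≤ 3 * e := by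
    intro j
    have h1 : w2 j - (∑ l, w2 l) * P.u j = ((ab wb j : ℝ) - (∑ l, (ab wb l : ℝ)) * P.u j) -
        (w1 j - (∑ l, w1 l) * P.u j) := by
      rw [hw2S, hw2]; ring
    rw [h1]
    refine (abs_sub _ _).trans ?_
    linarith [hB j, hw1pr j]
  have hw2H : ∑ j, P.ell j * w2 j = L * (lb + hv - t * la) := by
    have : ∑ j, P.ell j * w2 j = (∑ j, P.ell j * (ab wb j : ℝ)) - ∑ j, P.ell j * w1 j := by
      rw [← Finset.sum_sub_distrib]
      exact Finset.sum_congr rfl fun j _ => by rw [hw2]; ring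
    rw [this, hHB, hw1H]; ring
  have hw2i : 1 ≤ w2 i := by
    refine cg w2 1 hw2pr ?_
    rw [hw2H]
    exact hLη.trans (mul_le_mul_of_nonneg_left (by linarith) hL.le)
  -- the second parameter
  set t' : ℝ := w1 i / (ab wb i : ℝ) with ht'
  have ht'B : t' * (ab wb i : ℝ) = w1 i := by rw [ht']; field_simp
  have ht'0 : 0 < t' := div_pos (by linarith) hBi0
  have ht'1 : t' < 1 := by
    rw [ht', div_lt_one hBi0]
    have : w2 i = (ab wb i : ℝ) - w1 i := rfl
    linarith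
  -- the two points are close
  have hδ : ∀ j, |t' * (ab wb j : ℝ) - w1 j| ≤ c₀ / 2 := by
    intro j
    set δ : Fin d → ℝ := fun j => t' * (ab wb j : ℝ) - w1 j with hδd
    have hδS : ∑ l, δ l = t' * (∑ l, (ab wb l : ℝ)) - ∑ l, w1 l := by
      rw [hδd, Finset.sum_sub_distrib, Finset.mul_sum]
    have hδpr : ∀ j, |δ j - (∑ l, δ l) * P.u j| ≤ 3 * e := by
      intro j
      have h1 : δ j - (∑ l, δ l) * P.u j =
          t' * ((ab wb j : ℝ) - (∑ l, (ab wb l : ℝ)) * P.u j) -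
          (w1 j - (∑ l, w1 l) * P.u j) := by
        rw [hδS, hδd]; ring
      rw [h1]
      refine (abs_sub _ _).trans ?_
      rw [abs_mul, abs_of_pos ht'0]
      have h2 := hB j
      have h3 := hw1pr j
      have h4 := abs_nonneg ((ab wb j : ℝ) - (∑ l, (ab wb l : ℝ)) * P.u j)
      have h5 := mul_le_mul ht'1.le h2 h4 zero_le_one
      linarith
    have hδi : δ i = 0 := by rw [hδd]; simp only; linarith
    have h1 := hδpr i
    rw [hδi, zero_sub, abs_neg, abs_mul, abs_of_pos hu] at h1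
    have h2 : |∑ l, δ l| ≤ 3 * e * (1 / P.u i) := by
      rw [mul_one_div, le_div_iff₀ hu]; exact h1
    have h3 : |δ j| ≤ 3 * e + |∑ l, δ l| := by
      have h4 : δ j = (δ j - (∑ l, δ l) * P.u j) + (∑ l, δ l) * P.u j := by ring
      rw [h4]
      refine (abs_add_le _ _).trans (add_le_add (hδpr j) ?_)
      rw [abs_mul, abs_of_pos (P.u_pos j)]
      exact mul_le_of_le_one_right (abs_nonneg _) (u_le_one P j)
    have h5 : |δ j| ≤ c₀ / 2 := by
      calc |δ j| ≤ 3 * e + 3 * e * (1 / P.u i) := by linarith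
        _ = 3 * e * (1 + 1 / P.u i) := by ring
        _ ≤ c₀ / 2 := he
    exact h5
  -- the edge
  classical
  set z : Fin d → ℤ := fun j => if j = i then q0 + k - 1 else ⌊x j + t * (ab wa j : ℝ)⌋ with hz
  have hzi : (z i : ℝ) = q0 + k - 1 := by rw [hz]; simp
  have hzj : ∀ j, j ≠ i → (z j : ℝ) + c₀ ≤ x j + t * (ab wa j : ℝ) ∧
      x j + t * (ab wa j : ℝ) ≤ z j + 1 - c₀ := by
    intro j hj
    have hzj : z j = ⌊x j + t * (ab wa j : ℝ)⌋ := by rw [hz]; simp [hj]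
    have h1 := Int.floor_le (x j + t * (ab wa j : ℝ))
    have h2 := Int.lt_floor_add_one (x j + t * (ab wa j : ℝ))
    rw [← hzj] at h1 h2
    have h3 := hgood j hj (z j)
    have h4 := hgood j hj (z j + 1)
    rw [abs_of_nonneg (by linarith)] at h3
    rw [abs_of_nonpos (by push_cast; linarith)] at h4
    push_cast at h4
    constructor <;> linarith
  have hR : 0 ≤ 2 / P.u i := by positivity
  refine ⟨(z, i), ?_, ?_⟩
  · refine cross wa x hx ε (c₀ / 2) (2 / P.u i) hε hε1 hR hεc hta i (by exact_mod_cast hAi0)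
      (ratio wa (by linarith) hA) t ht0 ht1 z ?_ ?_
    · rw [htA, hzi]; ring
    · intro j hj
      have := hzj j hj
      constructor <;> linarith
  · have h1 : (z - W, i) ∈ edges 0 wb := by
      refine cross wb x hx ε (c₀ / 2) (2 / P.u i) hε hε1 hR hεc htb i (by exact_mod_cast hBi0)
        (ratio wb (by linarith) hB) t' ht'0 ht'1 (z - W) ?_ ?_
      · rw [ht'B]
        simp only [Pi.sub_apply]
        push_cast
        rw [hzi, hw1]
        simp only
        rw [htA]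
        ring
      · intro j hj
        have h2 := hzj j hj
        have h3 := abs_le.1 (hδ j)
        have h4 : w1 j = t * (ab wa j : ℝ) - (W j : ℝ) := rfl
        simp only [Pi.sub_apply]
        push_cast
        constructor <;> linarith [h3.1, h3.2]
    have h2 := JComp_mem_translate (t := W) h1
    simpa using h2

end Pool.Agent.TH990.PB
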